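import Pool.Agent.helper47.AKL.SpecK

set_option autoImplicit false

namespace Pool.Agent.AKL

open Polynomial Pool.Agent.HC Pool.Agent.HC.SJ Pool.Agent.SJ Pool.Agent.GJ Pool.Agent.TK Pool.Agent.TD
open Pool.Agent.FJ (VT Om chiO Jac Tup)
open Pool.Agent.AQ (PF galP eg Blk)
open Pool.Agent.TQ (VA galA zA)
open Pool.Agent.TI (TZ WA bs ES WC PL1_stmt PL2_stmt)
open scoped TensorProduct

noncomputable section

theorem KNB_small (q : ℕ) [Fact q.Prime] (ε : ℝ) (hε : 0 < ε) : ∃ K : ℕ, ‖(q : ℚ_[q]) ^ K‖ ≤ ε := by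
  obtain ⟨K, hK⟩ := exists_pow_lt_of_lt_one hε (Padic.norm_p_lt_one (p := q))
  exact ⟨K, by rw [norm_pow]; exact hK.le⟩

theorem KNB_pow {Ω V : Type} [Field Ω] [AddCommGroup V] [Module Ω V] (T : V ≃ₗ[Ω] V) (m : ℕ) (x : V) :
    (T ^ m) x = (((T : V →ₗ[Ω] V) : Module.End Ω V) ^ m) x := by
  induction m generalizing x with
  | zero => rfl
  | succ m ih =>
    rw [pow_succ, pow_succ]
    show (T ^ m) (T x) = (((T : V →ₗ[Ω] V) : Module.End Ω V) ^ m) (T x)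
    exact ih (T x)

/-- the automorphism of `Ω ⊗ V_q(J_i)` -/
def KNB_E {l q : ℕ} [Fact l.Prime] [Fact q.Prime] (hBGP : AQ.BGP_stmt) (D : Dat l) (i : Fin D.k) (σ : Om ≃+* Om) (h : PF D σ) :
    WA D q i ≃ₗ[PadicAlgCl q] WA D q i :=
  LinearEquiv.ofLinearMap (bs (galP q h i)) (bs (galP q ((hBGP l q D).2.2.1 σ h) i))
    (by
      rw [← LinearMap.baseChange_comp, ← LinearMap.baseChange_id]
      congr 1
      apply LinearMap.ext
      intro v
      obtain ⟨h1, h2, h3, h4⟩ := hBGP l q D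
      have h5 := (h4 i).1 σ σ⁻¹ h (h3 σ h) (h2 _ _ h (h3 σ h)) v
      have h6 : ∀ (τ : Om ≃+* Om) (hτ : PF D τ), τ = 1 → galP q hτ i v = v := by
        intro τ hτ e
        subst e
        exact (h4 i).2.1 hτ v
      rw [LinearMap.comp_apply, LinearMap.id_apply, ← h5]
      exact h6 _ _ (mul_inv_cancel σ))
    (by
      rw [← LinearMap.baseChange_comp, ← LinearMap.baseChange_id]
      congr 1
      apply LinearMap.ext
      intro v
      obtain ⟨h1, h2, h3, h4⟩ := hBGP l q D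
      have h5 := (h4 i).1 σ⁻¹ σ (h3 σ h) h (h2 _ _ (h3 σ h) h) v
      have h6 : ∀ (τ : Om ≃+* Om) (hτ : PF D τ), τ = 1 → galP q hτ i v = v := by
        intro τ hτ e
        subst e
        exact (h4 i).2.1 hτ v
      rw [LinearMap.comp_apply, LinearMap.id_apply, ← h5]
      exact h6 _ _ (inv_mul_cancel σ))

theorem KNB_E_coe {l q : ℕ} [Fact l.Prime] [Fact q.Prime] (hBGP : AQ.BGP_stmt) (D : Dat l) (i : Fin D.k) (σ : Om ≃+* Om)
    (h : PF D σ) : (KNB_E (q := q) hBGP D i σ h : WA D q i →ₗ[PadicAlgCl q] WA D q i) = bs (galP q h i) := rfl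

theorem KNB_E_mul {l q : ℕ} [Fact l.Prime] [Fact q.Prime] (hBGP : AQ.BGP_stmt) (D : Dat l) (i : Fin D.k) (σ τ : Om ≃+* Om)
    (h : PF D σ) (h' : PF D τ) (h'' : PF D (σ * τ)) :
    KNB_E (q := q) hBGP D i (σ * τ) h'' = KNB_E hBGP D i σ h * KNB_E hBGP D i τ h' := by
  apply LinearEquiv.toLinearMap_injective
  show bs (galP q h'' i) = bs (galP q h i) ∘ₗ bs (galP q h' i)
  rw [← LinearMap.baseChange_comp]
  congr 1
  apply LinearMap.ext
  intro v
  exact ((hBGP l q D).2.2.2 i).1 σ τ h h' h'' v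

theorem KNB_E_one {l q : ℕ} [Fact l.Prime] [Fact q.Prime] (hBGP : AQ.BGP_stmt) (D : Dat l) (i : Fin D.k) (h : PF D 1) :
    KNB_E (q := q) hBGP D i 1 h = 1 := by
  apply LinearEquiv.toLinearMap_injective
  show bs (galP q h i) = LinearMap.id
  rw [← LinearMap.baseChange_id]
  congr 1
  apply LinearMap.ext
  intro v
  exact ((hBGP l q D).2.2.2 i).2.1 h v

/-- the group of these automorphisms -/
def KNB_G {l q : ℕ} [Fact l.Prime] [Fact q.Prime] (hBGP : AQ.BGP_stmt) (D : Dat l) (i : Fin D.k) :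
    Subgroup (WA D q i ≃ₗ[PadicAlgCl q] WA D q i) where
  carrier := {g | ∃ (σ : Om ≃+* Om) (h : PF D σ), g = KNB_E hBGP D i σ h}
  mul_mem' := by
    rintro _ _ ⟨σ, h, rfl⟩ ⟨τ, h', rfl⟩
    exact ⟨σ * τ, (hBGP l q D).2.1 σ τ h h', (KNB_E_mul hBGP D i σ τ h h' _).symm⟩
  one_mem' := ⟨1, (hBGP l q D).1, (KNB_E_one hBGP D i _).symm⟩
  inv_mem' := by
    rintro _ ⟨σ, h, rfl⟩
    refine ⟨σ⁻¹, (hBGP l q D).2.2.1 σ h, ?_⟩
    have h1 : KNB_E (q := q) hBGP D i σ⁻¹ ((hBGP l q D).2.2.1 σ h) * KNB_E hBGP D i σ h = 1 := by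
      rw [← KNB_E_mul hBGP D i σ⁻¹ σ _ h ((hBGP l q D).2.1 _ _ ((hBGP l q D).2.2.1 σ h) h)]
      have h6 : ∀ (τ : Om ≃+* Om) (hτ : PF D τ), τ = 1 → KNB_E (q := q) hBGP D i τ hτ = 1 := by
        intro τ hτ e
        subst e
        exact KNB_E_one hBGP D i hτ
      exact h6 _ _ (inv_mul_cancel σ)
    exact inv_eq_of_mul_eq_one_left h1

theorem KNB_norm (q : ℕ) [Fact q.Prime] (x : ℚ_[q]) : ‖(algebraMap ℚ_[q] (PadicAlgCl q) x)‖ = ‖x‖ :=
  PadicAlgCl.norm_extends q x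

theorem KNB (hPL2 : TI.PL2_stmt) (hLNM : AQ.LNM_stmt) (hLDE : AQ.LDE_stmt) (hBGP : AQ.BGP_stmt) (hNB1 : TQ.NB1_stmt) (hDD : GJ.DD_stmt) : KNB_stmt := by
  classical
  intro l q _ _ hl2 D hn hInd hSep hAll hθl θ hθ i hloc jq s hs r S hS hcard hSU hSG g0 hg0 U0 hU0
  obtain ⟨θl, hθl⟩ := hθl
  have hl : l.Prime := Fact.out
  have hq : q.Prime := Fact.out
  have hl0 : NeZero (l : Om) := ⟨by exact_mod_cast hl.ne_zero⟩
  have hded : ∀ i, IsDedekindDomain (CR Om l (D.μ i) (D.a i)) := fun i => hDD Om l (D.n i) (D.μ i) (D.a i)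
  obtain ⟨τ, φ, hτ, hφ, hWC, hloc2⟩ := hloc.ex
  have hζ : IsPrimitiveRoot (jq ((s : Omˣ) : Om)) l := by
    have h1 : IsPrimitiveRoot ((s : Omˣ) : Om) l := hs
    exact h1.map_of_injective jq.injective
  have hr : 0 < (r : ℕ) + 1 := Nat.succ_pos _
  have hr' : (r : ℕ) + 1 < l := by
    have h1 := r.2
    have h2 := hl.two_le
    omega
  obtain ⟨hl1, hl2'⟩ := hloc2 s hs _ hζ ((r : ℕ) + 1) hr hr'
  obtain ⟨v, b, hb⟩ := hθ.free i s hs
  have hfin : FiniteDimensional ℚ_[q] (VA D q i) := Module.Finite.of_basis b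
  obtain ⟨-, -, -, -, -, -, hsum, -, -, -, -, hlat, -⟩ := hNB1 l q D
  obtain ⟨T, ⟨N, bT, hbT⟩, hTm⟩ := hlat i hfin
  have hrank : Module.finrank (PadicAlgCl q) (ES D q i s (jq ((s : Omˣ) : Om)) ((r : ℕ) + 1)) = D.n i :=
    (hLDE ℚ_[q] (PadicAlgCl q) (VA D q i) l (D.n i) hl (zA D q i s) v b hb (hsum i s hs) _ hζ).1 _ hr hr'
  let e : Module.Basis (Fin N) (PadicAlgCl q) (WA D q i) := Algebra.TensorProduct.basis (PadicAlgCl q) bT
  have hfinW : FiniteDimensional (PadicAlgCl q) (WA D q i) := Module.Finite.of_basis e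
  have hmain := @hLNM (PadicAlgCl q) (WA D q i) _ _ _ _ hfinW N (D.n i + 1) e
    (ES D q i s (jq ((s : Omˣ) : Om)) ((r : ℕ) + 1)) hloc.pr (by rw [hrank]; exact Nat.lt_succ_self _)
    (KNB_G hBGP D i) (KNB_E hBGP D i τ hτ) (KNB_E hBGP D i φ hφ) ⟨τ, hτ, rfl⟩ ⟨φ, hφ, rfl⟩ ?_ ?_ ?_ S hS
    (by rw [hrank]; exact hcard) hSU ?_ (KNB_E hBGP D i g0 hg0) ⟨g0, hg0, rfl⟩ U0 hU0
  · exact hmain
  · intro W hW h1 h2
    exact hl2' W hW h1 h2
  · obtain ⟨c, hc⟩ := hl1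
    refine ⟨c, ?_⟩
    intro x hx
    rw [KNB_pow]
    exact hc x hx
  · intro ε s0 hε hs0
    obtain ⟨K, hK⟩ := KNB_small q ε hε
    obtain ⟨F, u, hF, hu, r', s', hs', hdvd, hFr, hcong, hrep⟩ :=
      hPL2 l q hl2 D hn hInd hSep hAll θl hθl i φ hWC jq s hs r K s0 hs0
    refine ⟨KNB_E hBGP D i F hF, ⟨F, hF, rfl⟩, KNB_E hBGP D i u hu, ⟨u, hu, rfl⟩, r', s', hs', hdvd, ?_, ?_, ?_⟩
    · have h1 : ∀ m : ℕ, ∃ hm : PF D (F ^ m), (KNB_E (q := q) hBGP D i F hF) ^ m = KNB_E hBGP D i (F ^ m) hm := by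
        intro m
        induction m with
        | zero => exact ⟨(hBGP l q D).1, (KNB_E_one hBGP D i _).symm⟩
        | succ m ih =>
          obtain ⟨hm, h2⟩ := ih
          refine ⟨(hBGP l q D).2.1 _ _ hm hF, ?_⟩
          rw [pow_succ, h2]
          exact (KNB_E_mul hBGP D i (F ^ m) F hm hF _).symm
      obtain ⟨hm, h2⟩ := h1 r'
      rw [h2, ← KNB_E_mul hBGP D i φ u hφ hu ((hBGP l q D).2.1 _ _ hφ hu)]
      have h3 : ∀ (x y : Om ≃+* Om) (hx : PF D x) (hy : PF D y), x = y →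
          KNB_E (q := q) hBGP D i x hx = KNB_E hBGP D i y hy := by
        intro x y hx hy exy
        subst exy
        rfl
      exact h3 _ _ _ _ hFr
    · intro j j'
      have hbj : bT j' ∈ T := by
        rw [hbT]
        intro k
        rw [Module.Basis.repr_self]
        by_cases hk : j' = k
        · subst hk
          rw [Finsupp.single_eq_same, norm_one]
        · rw [Finsupp.single_apply, if_neg hk, norm_zero]
          exact zero_le_one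
      obtain ⟨f', hf', h2⟩ := hcong (bT j') ((hTm _).1 hbj)
      have hf'T : f' ∈ T := (hTm f').2 hf'
      have h3 : KNB_E hBGP D i u hu (e j') - e j' = (1 : PadicAlgCl q) ⊗ₜ[ℚ_[q]] ((q : ℚ_[q]) ^ K • f') := by
        have h4 : e j' = (1 : PadicAlgCl q) ⊗ₜ[ℚ_[q]] bT j' := Algebra.TensorProduct.basis_apply bT j'
        rw [h4]
        have h5 : KNB_E hBGP D i u hu ((1 : PadicAlgCl q) ⊗ₜ[ℚ_[q]] bT j') =
            (1 : PadicAlgCl q) ⊗ₜ[ℚ_[q]] (galP q hu i (bT j')) := rfl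
        rw [h5, h2, TensorProduct.tmul_add, add_sub_cancel_left]
      rw [h3]
      have h6 : e.repr ((1 : PadicAlgCl q) ⊗ₜ[ℚ_[q]] ((q : ℚ_[q]) ^ K • f')) j =
          algebraMap ℚ_[q] (PadicAlgCl q) ((q : ℚ_[q]) ^ K * bT.repr f' j) := by
        have h7 := Algebra.TensorProduct.basis_repr_tmul (A := PadicAlgCl q) bT 1 ((q : ℚ_[q]) ^ K • f')
        have h8 := congrArg (fun z => z j) h7
        refine h8.trans ?_
        rw [one_smul, Finsupp.mapRange_apply, map_smul]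
        rfl
      rw [h6, KNB_norm, norm_mul]
      calc ‖(q : ℚ_[q]) ^ K‖ * ‖bT.repr f' j‖ ≤ ‖(q : ℚ_[q]) ^ K‖ * 1 :=
            mul_le_mul_of_nonneg_left ((hbT f').1 hf'T j) (norm_nonneg _)
        _ ≤ ε := by rw [mul_one]; exact hK
    · intro c x y hx hy h1 h2
      rw [KNB_pow] at h1 h2
      exact hrep c x y hx hy h1 h2
  · rintro _ ⟨σ, h, rfl⟩ W hW
    exact hSG σ h W hW

end

end Pool.Agent.AKL
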